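import Mathlib
import Pool.Agent.Results.MP_157626_nt.TwistFamilyMoments
import Pool.Agent.Results.MP_157626_nt.UnbalancedPencils
import Pool.Agent.V11287.SA.Tail

/-!
# Bounded average ranks along fast growing sequences

Let `κ > 0`. For every sequence of real numbers `v_n > 1` with `v_(n+1) ≥ v_n ^ (1 + κ)` (it may grow
arbitrarily fast) and almost every real number `α`, the ranks of the members with the parameters
`t_n = ⌊α v_n⌋` of a one-parameter family with full 2-torsion are bounded on average, and the upper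
density of the `n` for which the rank is at least `r` decays exponentially in `r`, with constants
depending on the family and on `κ` only, not on `α` and the sequence. For the quadratic twists of a
fixed curve by a product of linear polynomials the decay is faster than exponential.
-/

set_option autoImplicit false

namespace Pool.Agent.Results.MP_157626_nt.BoundedAverageAlongSequences

open Finset Polynomial Filter MeasureTheory

open Pool.Agent.TH841.SH.D (ShaTor HasDiv rk)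
open Pool.Agent.Results.MP_157626_nt.TwistFamilyMoments (sel D)
open Pool.Agent.Results.MP_157626_nt.UnbalancedPencils (u s fib)

/-- every term is greater than one and at least the power `1 + κ` of the preceding term -/
def Fast (κ : ℝ) (v : ℕ → ℝ) : Prop := (∀ n, 1 < v n) ∧ ∀ n, v n ^ (1 + κ) ≤ v (n + 1)

/-- the integer `⌊α v_n⌋` -/
noncomputable def term (v : ℕ → ℝ) (α : ℝ) (n : ℕ) : ℤ := ⌊α * v n⌋

open Classical in
/-- the number of the `n < N` with the property `Q` -/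
noncomputable def count (N : ℕ) (Q : ℕ → Prop) : ℕ := ((range N).filter Q).card

open Classical in
/-- the sum of the `f n` over the `n < N` with the property `Q` -/
noncomputable def sumOver (N : ℕ) (Q : ℕ → Prop) (f : ℕ → ℝ) : ℝ :=
  ∑ n ∈ (range N).filter Q, f n

/-- the fibre at `t` is an elliptic curve -/
def Smooth {n : Fin 3 → ℕ} (d : ℤ[X]) (a : Fin 3 → ℤ) (f : ∀ k : Fin 3, Fin (n k) → ℤ[X])
    (t : ℤ) : Prop := ∀ k, (d * u a f k).eval t ≠ 0

/-- For the members `W_t`, `t = t_n`, of a pencil: all the groups `Ш[2 ^ k]` are finite, the averages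
of `rank + log₂ #Ш[2 ^ k] / k` over `n < N` are at most `C` for large `N`, and for all `r` and `q` at
most the proportion `C / 2 ^ (r + q)` of the `n < N`, `N` large, have rank at least `r` and a
subgroup `(ℚ₂ / ℤ₂) ^ q` in the Tate-Shafarevich group. -/
def PencilLaw {n : Fin 3 → ℕ} (d : ℤ[X]) (a : Fin 3 → ℤ) (f : ∀ k : Fin 3, Fin (n k) → ℤ[X])
    (C : ℝ) (t : ℕ → ℤ) : Prop :=
  (∀ m, Smooth d a f (t m) → ∀ k : ℕ, Finite (ShaTor (fib d a f (t m)) (2 ^ k))) ∧
  (∀ k : ℕ, 1 ≤ k → ∀ᶠ N : ℕ in atTop, sumOver N (fun m => Smooth d a f (t m)) (fun m =>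
    (rk (fib d a f (t m)) : ℝ) +
      Real.logb 2 (Nat.card (ShaTor (fib d a f (t m)) (2 ^ k))) / k) ≤ C * N) ∧
  ∀ r q : ℕ, ∀ᶠ N : ℕ in atTop, (count N (fun m => Smooth d a f (t m) ∧
    r ≤ rk (fib d a f (t m)) ∧ HasDiv (fib d a f (t m)) q) : ℝ) ≤ C * N / 2 ^ (r + q)

/-- For the twists of `y² = x³ + A x + B` by `D(t)`, `t = t_n`, `D(t) ≠ 0`: the order of the 2-Selmer
group is at least `2 ^ rank`; the averages of the binary logarithms of these orders over `n < N` are
at most `c 1` for large `N`; for all `k` and `r` at most the proportion `c k / 2 ^ (k r)` of the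
`n < N`, `N` large, have a 2-Selmer group with at least `2 ^ r` elements. -/
def TwistLaw (A B : ℤ) {m : ℕ} (γ δ : Fin m → ℤ) (c : ℕ → ℝ) (t : ℕ → ℤ) : Prop :=
  (∀ n, D γ δ (t n) ≠ 0 →
    2 ^ TwistFamilyMoments.rk A B (D γ δ (t n)) ≤ sel A B (D γ δ (t n))) ∧
  (∀ᶠ N : ℕ in atTop, sumOver N (fun n => D γ δ (t n) ≠ 0)
    (fun n => Real.logb 2 (sel A B (D γ δ (t n)))) ≤ c 1 * N) ∧
  ∀ k r : ℕ, ∀ᶠ N : ℕ in atTop, (count N (fun n => D γ δ (t n) ≠ 0 ∧
    2 ^ r ≤ sel A B (D γ δ (t n))) : ℝ) ≤ c k * N / 2 ^ (k * r)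

lemma count_eq {N : ℕ} {Q : ℕ → Prop} [DecidablePred Q] :
    count N Q = ((range N).filter Q).card := by
  unfold count
  refine congrArg Finset.card ?_
  ext n
  simp only [mem_filter]

lemma logb_le_self {x : ℝ} (hx : 1 ≤ x) : Real.logb 2 x ≤ x := by
  rw [Real.logb, div_le_iff₀ (Real.log_pos (by norm_num))]
  have h1 := Real.log_le_sub_one_of_pos (show 0 < x / 2 by positivity)
  rw [Real.log_div (by positivity) (by norm_num)] at h1
  have h2 := Real.log_two_gt_d9
  nlinarith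

open Classical in
/-- the law for pencils -/
theorem pencil (κ : ℝ) (hκ : 0 < κ) (n : Fin 3 → ℕ) (a : Fin 3 → ℤ)
    (f : ∀ k : Fin 3, Fin (n k) → ℤ[X]) (d : ℤ[X])
    (ha : ∀ k, a k ≠ 0) (hf : ∀ k i, Irreducible (f k i) ∧ 0 < (f k i).natDegree)
    (hf' : ∀ k i l j, (⟨k, i⟩ : Σ k : Fin 3, Fin (n k)) ≠ ⟨l, j⟩ → ¬ Associated (f k i) (f l j))
    (hu : u a f 0 - u a f 1 = u a f 2) (hd : d ≠ 0) (hdf : ∀ k i, ¬ f k i ∣ d)
    (hs : ∀ k, 2 * n k + s d a f k ≤ n 0 + n 1 + n 2) :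
    ∃ C : ℝ, ∀ v : ℕ → ℝ, Fast κ v → ∀ᵐ α : ℝ, PencilLaw d a f C (term v α) := by
  obtain ⟨L, hL⟩ := Pool.Agent.V11287.SA.exists_L hκ
  obtain ⟨C₀, hC₀⟩ := UnbalancedPencils.result n a f d ha hf hf' hu hd hdf hs L
  set C₁ : ℝ := |C₀| + 1 with hC₁
  have h01 : C₀ ≤ C₁ := (le_abs_self C₀).trans (by linarith)
  have h1 : 0 < C₁ := by positivity
  have hpar : ∀ N M, (UnbalancedPencils.Par d a f N M) =
      (Ioc N (N + M)).filter (fun t => Smooth d a f t) := by
    intro N M
    unfold UnbalancedPencils.Par Smooth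
    congr
  have hfin : ∀ t : ℤ, Smooth d a f t → ∀ k : ℕ, Finite (ShaTor (fib d a f t) (2 ^ k)) := by
    intro t ht k
    obtain ⟨L', hL'⟩ : ∃ M : ℕ, 1 ≤ M ∧ |t - 1| ≤ (M : ℤ) ^ (L + 1) ∧ |t - 1| ≤ (M : ℤ) ^ L ∨
        L = 0 := by
      rcases Nat.eq_zero_or_pos L with h0 | h0
      · exact ⟨0, Or.inr h0⟩
      · refine ⟨(t - 1).natAbs + 1, Or.inl ⟨by omega, ?_, ?_⟩⟩
        · push_cast
          have h2 : (0 : ℤ) ≤ |t - 1| := abs_nonneg _
          calc |t - 1| ≤ (|t - 1| + 1) ^ 1 := by linarith [pow_one (|t - 1| + 1)]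
            _ ≤ (|t - 1| + 1) ^ (L + 1) := pow_le_pow_right₀ (by linarith) (by omega)
        · push_cast
          have h2 : (0 : ℤ) ≤ |t - 1| := abs_nonneg _
          calc |t - 1| ≤ (|t - 1| + 1) ^ 1 := by linarith [pow_one (|t - 1| + 1)]
            _ ≤ (|t - 1| + 1) ^ L := pow_le_pow_right₀ (by linarith) h0
    rcases hL' with ⟨hM, _, hM2⟩ | h0
    · have h3 := (hC₀ (t - 1) L' hM hM2).1 t (by
        rw [hpar, mem_filter, mem_Ioc]
        exact ⟨⟨by omega, by omega⟩, ht⟩)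
      exact h3 k
    · exfalso
      rw [h0] at hL
      push_cast at hL
      nlinarith
  refine ⟨2 * (C₁ + 2), fun v hv => ?_⟩
  -- averages
  have hA : ∀ k : ℕ, 1 ≤ k → ∀ᵐ α : ℝ, ∀ᶠ N : ℕ in atTop,
      sumOver N (fun m => Smooth d a f (term v α m)) (fun m =>
        (rk (fib d a f (term v α m)) : ℝ) +
          Real.logb 2 (Nat.card (ShaTor (fib d a f (term v α m)) (2 ^ k))) / k) ≤
        (2 * (C₁ + 2)) * N := by
    intro k hk
    set g : ℤ → ℝ := fun t => if Smooth d a f t then (rk (fib d a f t) : ℝ) +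
      Real.logb 2 (Nat.card (ShaTor (fib d a f t) (2 ^ k))) / k else 0 with hg
    have hcard : ∀ t, Smooth d a f t → (0 : ℝ) < Nat.card (ShaTor (fib d a f t) (2 ^ k)) := by
      intro t ht
      haveI := hfin t ht k
      haveI : Nonempty (ShaTor (fib d a f t) (2 ^ k)) := ⟨⟨0, smul_zero _⟩⟩
      exact_mod_cast Nat.card_pos
    have hpow : ∀ t, Smooth d a f t → (2 : ℝ) ^ (g t) = (2 : ℝ) ^ rk (fib d a f t) *
        (Nat.card (ShaTor (fib d a f t) (2 ^ k)) : ℝ) ^ ((1 : ℝ) / k) := by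
      intro t ht
      have h2 : (2 : ℝ) ^ Real.logb 2 (Nat.card (ShaTor (fib d a f t) (2 ^ k))) =
        (Nat.card (ShaTor (fib d a f t) (2 ^ k)) : ℝ) :=
        Real.rpow_logb (by norm_num) (by norm_num) (hcard t ht)
      simp only [hg, if_pos ht]
      rw [Real.rpow_add (by norm_num), Real.rpow_natCast, div_eq_mul_one_div (Real.logb 2 _),
        Real.rpow_mul (by norm_num), h2]
    have hsum : ∀ (N : ℤ) (M : ℕ), 1 ≤ M → |N| ≤ (M : ℤ) ^ L →
        ∑ t ∈ Ioc N (N + M), (2 : ℝ) ^ (g t) ≤ (C₁ + 1) * M := by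
      intro N M hM hN
      have h2 := (hC₀ N M hM hN).2.1 k hk
      rw [hpar] at h2
      have h3 : ∀ t ∈ Ioc N (N + M), (2 : ℝ) ^ (g t) ≤
          (if Smooth d a f t then (2 : ℝ) ^ rk (fib d a f t) *
            (Nat.card (ShaTor (fib d a f t) (2 ^ k)) : ℝ) ^ ((1 : ℝ) / k) else 0) + 1 := by
        intro t _
        by_cases ht : Smooth d a f t
        · rw [if_pos ht, hpow t ht]; linarith
        · rw [if_neg ht]
          simp only [hg, if_neg ht, Real.rpow_zero]
          linarith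
      refine (sum_le_sum h3).trans ?_
      rw [sum_add_distrib, ← sum_filter, sum_const, Int.card_Ioc, nsmul_eq_mul, mul_one,
        add_sub_cancel_left, Int.toNat_natCast]
      have h4 : C₀ * M ≤ C₁ * M := mul_le_mul_of_nonneg_right h01 (Nat.cast_nonneg _)
      linarith
    have h5 := Pool.Agent.V11287.SA.avg g hκ (C := C₁ + 1) (R := C₁ + 2) (by positivity)
      (by linarith) L hL hsum v hv.1 hv.2
    filter_upwards [h5] with α hα
    filter_upwards [hα] with N hN
    have h6 : sumOver N (fun m => Smooth d a f (term v α m)) (fun m =>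
        (rk (fib d a f (term v α m)) : ℝ) +
          Real.logb 2 (Nat.card (ShaTor (fib d a f (term v α m)) (2 ^ k))) / k) =
        ∑ m ∈ range N, g ⌊α * v m⌋ := by
      unfold sumOver
      rw [sum_filter]
      refine sum_congr rfl fun j _ => ?_
      by_cases h : Smooth d a f (term v α j)
      · rw [if_pos h]
        have h' : Smooth d a f ⌊α * v j⌋ := h
        simp only [hg]
        rw [if_pos h']
        rfl
      · rw [if_neg h]
        have h' : ¬ Smooth d a f ⌊α * v j⌋ := h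
        simp only [hg]
        rw [if_neg h']
    rw [h6]
    refine hN.trans (mul_le_mul_of_nonneg_right ?_ (Nat.cast_nonneg _))
    refine (logb_le_self (by linarith)).trans (by linarith)
  -- tails
  have hT : ∀ r q : ℕ, ∀ᵐ α : ℝ, ∀ᶠ N : ℕ in atTop, (count N (fun m =>
      Smooth d a f (term v α m) ∧ r ≤ rk (fib d a f (term v α m)) ∧
        HasDiv (fib d a f (term v α m)) q) : ℝ) ≤ (2 * (C₁ + 2)) * N / 2 ^ (r + q) := by
    intro r q
    have h5 := Pool.Agent.V11287.SA.tail (fun t => Smooth d a f t ∧ r ≤ rk (fib d a f t) ∧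
      HasDiv (fib d a f t) q) hκ (ρ := C₁ / 2 ^ (r + q)) (by positivity) L hL (by
        intro N M hM hN
        have h2 := (hC₀ N M hM hN).2.2 r q
        rw [hpar, filter_filter] at h2
        refine h2.trans ?_
        rw [div_mul_eq_mul_div]
        gcongr) v hv.1 hv.2
    filter_upwards [h5] with α hα
    filter_upwards [hα] with N hN
    rw [← count_eq] at hN
    refine hN.trans ?_
    · rw [mul_div_assoc', div_mul_eq_mul_div]
      gcongr
      linarith
  have hA' : ∀ᵐ α : ℝ, ∀ k : ℕ, 1 ≤ k → ∀ᶠ N : ℕ in atTop,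
      sumOver N (fun m => Smooth d a f (term v α m)) (fun m =>
        (rk (fib d a f (term v α m)) : ℝ) +
          Real.logb 2 (Nat.card (ShaTor (fib d a f (term v α m)) (2 ^ k))) / k) ≤
        (2 * (C₁ + 2)) * N := by
    rw [ae_all_iff]
    intro k
    by_cases hk : 1 ≤ k
    · filter_upwards [hA k hk] with α hα _ using hα
    · exact Eventually.of_forall fun α h => absurd h hk
  have hT' : ∀ᵐ α : ℝ, ∀ r q : ℕ, ∀ᶠ N : ℕ in atTop, (count N (fun m =>
      Smooth d a f (term v α m) ∧ r ≤ rk (fib d a f (term v α m)) ∧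
        HasDiv (fib d a f (term v α m)) q) : ℝ) ≤ (2 * (C₁ + 2)) * N / 2 ^ (r + q) := by
    rw [ae_all_iff]
    intro r
    rw [ae_all_iff]
    exact hT r
  filter_upwards [hA', hT'] with α h2 h3
  exact ⟨fun m hm => hfin _ hm, h2, h3⟩

open Classical in
/-- the law for twists -/
theorem twist (κ : ℝ) (hκ : 0 < κ) (A B e₁ e₂ e₃ : ℤ) (hE : 4 * A ^ 3 + 27 * B ^ 2 ≠ 0)
    (he : ∀ x : ℤ, x ^ 3 + A * x + B = (x - e₁) * (x - e₂) * (x - e₃))
    (m : ℕ) (γ δ : Fin m → ℤ) (hγ : ∀ i, γ i ≠ 0)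
    (hγδ : ∀ i j, i ≠ j → γ i * δ j ≠ γ j * δ i) :
    ∃ c : ℕ → ℝ, ∀ v : ℕ → ℝ, Fast κ v → ∀ᵐ α : ℝ, TwistLaw A B γ δ c (term v α) := by
  obtain ⟨L, hL⟩ := Pool.Agent.V11287.SA.exists_L hκ
  obtain ⟨hsel, hmom⟩ := TwistFamilyMoments.result A B e₁ e₂ e₃ hE he m γ δ hγ hγδ
  choose C₀ hC₀ using fun k => hmom k L
  set C₁ : ℕ → ℝ := fun k => |C₀ k| + 1 with hC₁
  have h01 : ∀ k, C₀ k ≤ C₁ k := fun k => (le_abs_self _).trans (by simp [hC₁])
  have h1 : ∀ k, 0 < C₁ k := fun k => by simp only [hC₁]; positivity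
  have hpos : ∀ t, D γ δ t ≠ 0 → (1 : ℝ) ≤ sel A B (D γ δ t) := by
    intro t ht
    have h2 := (hsel t ht).2
    have h3 : 1 ≤ 2 ^ TwistFamilyMoments.rk A B (D γ δ t) := Nat.one_le_two_pow
    exact_mod_cast h3.trans h2
  refine ⟨fun k => 2 * (C₁ k + 2), fun v hv => ?_⟩
  have hA : ∀ᵐ α : ℝ, ∀ᶠ N : ℕ in atTop, sumOver N (fun n => D γ δ (term v α n) ≠ 0)
      (fun n => Real.logb 2 (sel A B (D γ δ (term v α n)))) ≤ (2 * (C₁ 1 + 2)) * N := by
    set g : ℤ → ℝ := fun t => if D γ δ t ≠ 0 then Real.logb 2 (sel A B (D γ δ t)) else 0 with hg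
    have hsum : ∀ (N : ℤ) (M : ℕ), 1 ≤ M → |N| ≤ (M : ℤ) ^ L →
        ∑ t ∈ Ioc N (N + M), (2 : ℝ) ^ (g t) ≤ (C₁ 1 + 1) * M := by
      intro N M hM hN
      have h2 := (hC₀ 1 N M hM hN).1
      have h3 : ∀ t ∈ Ioc N (N + M), (2 : ℝ) ^ (g t) ≤
          (if D γ δ t ≠ 0 then (sel A B (D γ δ t) : ℝ) ^ 1 else 0) + 1 := by
        intro t _
        by_cases ht : D γ δ t ≠ 0
        · simp only [hg, if_pos ht]
          rw [Real.rpow_logb (by norm_num) (by norm_num) (by linarith [hpos t ht]), pow_one]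
          linarith
        · simp only [hg, if_neg ht, Real.rpow_zero]
          linarith
      refine (sum_le_sum h3).trans ?_
      rw [sum_add_distrib, ← sum_filter, sum_const, Int.card_Ioc, nsmul_eq_mul, mul_one,
        add_sub_cancel_left, Int.toNat_natCast]
      have h4 : C₀ 1 * M ≤ C₁ 1 * M := mul_le_mul_of_nonneg_right (h01 1) (Nat.cast_nonneg _)
      linarith
    have h5 := Pool.Agent.V11287.SA.avg g hκ (C := C₁ 1 + 1) (R := C₁ 1 + 2)
      (by linarith [h1 1]) (by linarith) L hL hsum v hv.1 hv.2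
    filter_upwards [h5] with α hα
    filter_upwards [hα] with N hN
    have h6 : sumOver N (fun n => D γ δ (term v α n) ≠ 0)
        (fun n => Real.logb 2 (sel A B (D γ δ (term v α n)))) = ∑ n ∈ range N, g ⌊α * v n⌋ := by
      unfold sumOver
      rw [sum_filter]
      refine sum_congr rfl fun j _ => ?_
      by_cases h : D γ δ (term v α j) ≠ 0
      · rw [if_pos h]
        have h' : D γ δ ⌊α * v j⌋ ≠ 0 := h
        simp only [hg]
        rw [if_pos h']
        rfl
      · rw [if_neg h]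
        have h' : ¬ D γ δ ⌊α * v j⌋ ≠ 0 := h
        simp only [hg]
        rw [if_neg h']
    rw [h6]
    refine hN.trans (mul_le_mul_of_nonneg_right ?_ (Nat.cast_nonneg _))
    refine (logb_le_self (by linarith [h1 1])).trans (by linarith [h1 1])
  have hT : ∀ k r : ℕ, ∀ᵐ α : ℝ, ∀ᶠ N : ℕ in atTop, (count N (fun n =>
      D γ δ (term v α n) ≠ 0 ∧ 2 ^ r ≤ sel A B (D γ δ (term v α n))) : ℝ) ≤
        (2 * (C₁ k + 2)) * N / 2 ^ (k * r) := by
    intro k r
    have h5 := Pool.Agent.V11287.SA.tail (fun t => D γ δ t ≠ 0 ∧ 2 ^ r ≤ sel A B (D γ δ t))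
      hκ (ρ := C₁ k / 2 ^ (k * r)) (div_pos (h1 k) (by positivity)) L hL (by
        intro N M hM hN
        have h2 := (hC₀ k N M hM hN).1
        rw [div_mul_eq_mul_div, le_div_iff₀ (by positivity)]
        have h4 : C₀ k * M ≤ C₁ k * M := mul_le_mul_of_nonneg_right (h01 k) (Nat.cast_nonneg _)
        refine le_trans ?_ (h2.trans h4)
        have hsub : (Ioc N (N + M)).filter (fun t => D γ δ t ≠ 0 ∧ 2 ^ r ≤ sel A B (D γ δ t)) ⊆
            (Ioc N (N + M)).filter (fun t => D γ δ t ≠ 0) := by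
          intro t ht
          rw [mem_filter] at ht ⊢
          exact ⟨ht.1, ht.2.1⟩
        refine le_trans ?_ (sum_le_sum_of_subset_of_nonneg hsub (fun _ _ _ => by positivity))
        rw [← nsmul_eq_mul]
        refine card_nsmul_le_sum _ _ _ fun t ht => ?_
        obtain ⟨_, _, h6⟩ := mem_filter.1 ht
        have h7 : ((2 : ℝ) ^ r) ≤ (sel A B (D γ δ t) : ℝ) := by exact_mod_cast h6
        rw [mul_comm k r, pow_mul]
        exact pow_le_pow_left₀ (by positivity) h7 k) v hv.1 hv.2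
    filter_upwards [h5] with α hα
    filter_upwards [hα] with N hN
    rw [← count_eq] at hN
    refine hN.trans ?_
    · rw [mul_div_assoc', div_mul_eq_mul_div]
      gcongr
      linarith
  have hT' : ∀ᵐ α : ℝ, ∀ k r : ℕ, ∀ᶠ N : ℕ in atTop, (count N (fun n =>
      D γ δ (term v α n) ≠ 0 ∧ 2 ^ r ≤ sel A B (D γ δ (term v α n))) : ℝ) ≤
        (2 * (C₁ k + 2)) * N / 2 ^ (k * r) := by
    rw [ae_all_iff]
    intro k
    rw [ae_all_iff]
    exact hT k
  filter_upwards [hA, hT'] with α h2 h3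
  exact ⟨fun n hn => (hsel _ hn).2, h2, h3⟩

/-- **Theorem.** Let `κ > 0`, and let `t_n = ⌊α v_n⌋`.
(1) For every family `W_t : y² = x (x - d(t) u₀(t)) (x - d(t) u₁(t))` as in `UnbalancedPencils` there is
`C`, depending on the family and on `κ` only, such that for all sequences of real numbers `v_n > 1`
with `v_(n+1) ≥ v_n ^ (1 + κ)` and almost all real `α`: the averages of
`rank + log₂ #Ш[2 ^ k] / k` over the smooth members `W_t`, `t = t_n`, `n < N`, are at most `C` for all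
large `N`, for all `k ≥ 1`, and the upper density of the `n` for which `W_t` has rank at least `r` and
a subgroup `(ℚ₂ / ℤ₂) ^ q` in the Tate-Shafarevich group is at most `C / 2 ^ (r + q)`, for all `r`
and `q`.
(2) For every curve `y² = x³ + A x + B` with three integer roots and every product `D(t)` of pairwise
non-proportional linear polynomials there are numbers `c_k`, `k ≥ 0`, depending on these and on `κ`
only, such that for all these sequences and almost all `α`: the averages of the binary logarithm of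
the order (at least `2 ^ rank`) of the 2-Selmer group of the twists by `D(t_n) ≠ 0`, `n < N`, are at
most `c_1` for all large `N`, and the upper density of the `n` for which this order is at least
`2 ^ r` is at most `c_k / 2 ^ (k r)`, for all `k` and `r`. -/
theorem result (κ : ℝ) (hκ : 0 < κ) :
    (∀ (n : Fin 3 → ℕ) (a : Fin 3 → ℤ) (f : ∀ k : Fin 3, Fin (n k) → ℤ[X]) (d : ℤ[X]),
      (∀ k, a k ≠ 0) → (∀ k i, Irreducible (f k i) ∧ 0 < (f k i).natDegree) →
      (∀ k i l j, (⟨k, i⟩ : Σ k : Fin 3, Fin (n k)) ≠ ⟨l, j⟩ → ¬ Associated (f k i) (f l j)) →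
      u a f 0 - u a f 1 = u a f 2 → d ≠ 0 → (∀ k i, ¬ f k i ∣ d) →
      (∀ k, 2 * n k + s d a f k ≤ n 0 + n 1 + n 2) →
      ∃ C : ℝ, ∀ v : ℕ → ℝ, Fast κ v → ∀ᵐ α : ℝ, PencilLaw d a f C (term v α)) ∧
    ∀ A B e₁ e₂ e₃ : ℤ, 4 * A ^ 3 + 27 * B ^ 2 ≠ 0 →
      (∀ x : ℤ, x ^ 3 + A * x + B = (x - e₁) * (x - e₂) * (x - e₃)) →
      ∀ (m : ℕ) (γ δ : Fin m → ℤ), (∀ i, γ i ≠ 0) → (∀ i j, i ≠ j → γ i * δ j ≠ γ j * δ i) →
      ∃ c : ℕ → ℝ, ∀ v : ℕ → ℝ, Fast κ v → ∀ᵐ α : ℝ, TwistLaw A B γ δ c (term v α) :=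
  ⟨fun n a f d ha hf hf' hu hd hdf hs => pencil κ hκ n a f d ha hf hf' hu hd hdf hs,
    fun A B e₁ e₂ e₃ hE he m γ δ hγ hγδ => twist κ hκ A B e₁ e₂ e₃ hE he m γ δ hγ hγδ⟩

end Pool.Agent.Results.MP_157626_nt.BoundedAverageAlongSequences
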