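import Mathlib
import Pool.Agent.V1166.WI.Ell
import Pool.Agent.Results.MP_157626_nt.TwistFamilyMoments
import Pool.Agent.Results.MP_157626_nt.UnbalancedPencils

/-!
# The rank near the multiples of a random number

Let `v n ≥ 1` be any sequence of real numbers, for example `2 ^ n` or `2 ^ 2 ^ n`. There is a set of
measure zero such that the following holds for all the real numbers `α` outside of it.

* For all elliptic curves `E` over `ℚ` with full rational 2-torsion and all polynomials `D ≠ 0` with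
  integer coefficients, all `C` and all `ε > 0`: if `n` is large, then for ALL the integers `t` with
  `|t - α v n| ≤ n ^ C` and `D(t) ≠ 0` the 2-Selmer group of the quadratic twist of `E` by `D(t)` has
  at most `n ^ ε` elements. So the rank of the twist is at most `ε log₂ n`.
* For all the families `W_t : y² = x (x - D(t) u₀(t)) (x - D(t) u₁(t))` of `UnbalancedPencils`, all `C`
  with `n ^ C ≤ v n` for large `n`, and all `ε > 0`: if `n` is large, then for ALL the integers `t` with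
  `|t - α v n| ≤ n ^ C` such that `W_t` is an elliptic curve, `2 ^ rank * #Ш[2 ^ k] ^ (1 / k)` is at
  most `n ^ (C + 1 + ε)` for all `k ≥ 1`.

The bounds depend on the index `n` only, however fast the sequence grows.
-/

set_option autoImplicit false

namespace Pool.Agent.Results.MP_157626_nt.SelmerWindows

open MeasureTheory Filter Finset Polynomial

open Pool.Agent.TH841.SH.D (ShaTor)
open Pool.Agent.Results.MP_157626_nt.TwistFamilyMoments (Sel2 sel)
open Pool.Agent.Results.MP_157626_nt.UnbalancedPencils (u s fib)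

/-- the rank of the quadratic twist of `y² = x³ + A x + B` by `d` -/
noncomputable def rkTwist (A B d : ℤ) : ℕ := TwistFamilyMoments.rk A B d

/-- the rank of the Mordell-Weil group -/
noncomputable def rk (W : WeierstrassCurve ℚ) : ℕ := Pool.Agent.TH841.SH.D.rk W

/-- small Selmer groups for the twists by `D(t)` for all `t` within `n ^ C` of `α * v n`, `n` large -/
def TwistLaw (v : ℕ → ℝ) (α : ℝ) (A B : ℤ) (D : ℤ[X]) : Prop :=
  ∀ (C : ℕ) (ε : ℝ), 0 < ε → ∀ᶠ n : ℕ in atTop, ∀ t : ℤ, |(t : ℝ) - α * v n| ≤ (n : ℝ) ^ C →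
    D.eval t ≠ 0 →
      (Sel2 ((D.eval t) ^ 2 * A) ((D.eval t) ^ 3 * B)).Finite ∧
      2 ^ rkTwist A B (D.eval t) ≤ sel A B (D.eval t) ∧ (sel A B (D.eval t) : ℝ) ≤ (n : ℝ) ^ ε

/-- the fibre at `t` is an elliptic curve -/
def Smooth {n : Fin 3 → ℕ} (D : ℤ[X]) (a : Fin 3 → ℤ) (f : ∀ k : Fin 3, Fin (n k) → ℤ[X])
    (t : ℤ) : Prop := ∀ k, (D * u a f k).eval t ≠ 0

/-- bounds for the members `W_t` of a pencil for all `t` within `n ^ C` of `α * v n`, `n` large -/
def PencilLaw (v : ℕ → ℝ) (α : ℝ) {n : Fin 3 → ℕ} (D : ℤ[X]) (a : Fin 3 → ℤ)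
    (f : ∀ k : Fin 3, Fin (n k) → ℤ[X]) : Prop :=
  ∀ (C : ℕ) (ε : ℝ), 0 < ε → (∀ᶠ m : ℕ in atTop, (m : ℝ) ^ C ≤ v m) →
    ∀ᶠ m : ℕ in atTop, ∀ t : ℤ, |(t : ℝ) - α * v m| ≤ (m : ℝ) ^ C → Smooth D a f t →
      ∀ k : ℕ, 1 ≤ k → Finite (ShaTor (fib D a f t) (2 ^ k)) ∧
        (2 : ℝ) ^ rk (fib D a f t) *
          (Nat.card (ShaTor (fib D a f t) (2 ^ k)) : ℝ) ^ ((1 : ℝ) / k) ≤ (m : ℝ) ^ ((C : ℝ) + 1 + ε)

/-- **Theorem.** Let `v n ≥ 1` be a sequence of real numbers. For almost all real numbers `α`: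
(1) for all elliptic curves `E : y² = x³ + A x + B` with three integer roots, all polynomials `D ≠ 0`
with integer coefficients, all `C` and `ε > 0` and all large `n`, the twists of `E` by `D(t) ≠ 0`, for
all the integers `t` with `|t - α v n| ≤ n ^ C`, have 2-Selmer groups of order at most `n ^ ε`, so that
`2 ^ rank` is at most `n ^ ε`; (2) for all the pencils of `UnbalancedPencils`, all `C` such that
`n ^ C ≤ v n` for large `n`, all `ε > 0` and all large `n`, for all the integers `t` with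
`|t - α v n| ≤ n ^ C` such that `W_t` is an elliptic curve and all `k ≥ 1` the group `Ш(W_t)[2 ^ k]` is
finite and `2 ^ rank * #Ш(W_t)[2 ^ k] ^ (1 / k) ≤ n ^ (C + 1 + ε)`. -/
theorem result (v : ℕ → ℝ) (hv : ∀ n, 1 ≤ v n) : ∀ᵐ α : ℝ,
    (∀ A B e₁ e₂ e₃ : ℤ, 4 * A ^ 3 + 27 * B ^ 2 ≠ 0 →
      (∀ x : ℤ, x ^ 3 + A * x + B = (x - e₁) * (x - e₂) * (x - e₃)) →
      ∀ D : ℤ[X], D ≠ 0 → TwistLaw v α A B D) ∧
    ∀ (n : Fin 3 → ℕ) (a : Fin 3 → ℤ) (f : ∀ k : Fin 3, Fin (n k) → ℤ[X]) (D : ℤ[X]),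
      (∀ k, a k ≠ 0) → (∀ k i, Irreducible (f k i) ∧ 0 < (f k i).natDegree) →
      (∀ k i l j, (⟨k, i⟩ : Σ k : Fin 3, Fin (n k)) ≠ ⟨l, j⟩ → ¬ Associated (f k i) (f l j)) →
      u a f 0 - u a f 1 = u a f 2 → D ≠ 0 → (∀ k i, ¬ f k i ∣ D) →
      (∀ k, 2 * n k + s D a f k ≤ n 0 + n 1 + n 2) → PencilLaw v α D a f := by
  classical
  have := Pool.Agent.V1166.WI.countable_poly
  rw [eventually_and]
  constructor
  · rw [ae_all_iff]; intro A
    rw [ae_all_iff]; intro B
    rw [ae_all_iff]; intro e₁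
    rw [ae_all_iff]; intro e₂
    rw [ae_all_iff]; intro e₃
    refine Pool.Agent.V1166.WI.ae_imp fun hE => Pool.Agent.V1166.WI.ae_imp fun he => ?_
    rw [ae_all_iff]; intro D
    refine Pool.Agent.V1166.WI.ae_imp fun hD => ?_
    have h1 := Pool.Agent.V1166.WI.moments (P := fun t => D.eval t ≠ 0)
      (w := fun t => ((Pool.Agent.W307.SE.SelR ((D.eval t) ^ 2 * A)
        ((D.eval t) ^ 3 * B)).ncard : ℝ)) (fun t _ => Nat.cast_nonneg _)
      (Pool.Agent.V1166.WI.avg_twist hE he D hD) hv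
    filter_upwards [h1] with α hα C ε hε
    filter_upwards [hα C ε hε] with n hn t ht hDt
    have h2 := (Pool.Agent.TH639.SL.sel_tw hE he hDt).1
    refine ⟨h2, ?_, hn t ht hDt⟩
    exact Pool.Agent.W402.FK.rks _ _ _ _ _ (Pool.Agent.TH639.SL.disc_tw hDt hE)
      (Pool.Agent.TH639.SL.roots_tw he (D.eval t)) h2
  · rw [ae_all_iff]; intro n
    rw [ae_all_iff]; intro a
    rw [ae_all_iff]; intro f
    rw [ae_all_iff]; intro D
    refine Pool.Agent.V1166.WI.ae_imp fun ha => Pool.Agent.V1166.WI.ae_imp fun hf =>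
      Pool.Agent.V1166.WI.ae_imp fun hf' => Pool.Agent.V1166.WI.ae_imp fun hu =>
      Pool.Agent.V1166.WI.ae_imp fun hD => Pool.Agent.V1166.WI.ae_imp fun hDf =>
      Pool.Agent.V1166.WI.ae_imp fun hs => ?_
    have hfin : ∀ t : ℤ, Smooth D a f t → ∀ k : ℕ, Finite (ShaTor (fib D a f t) (2 ^ k)) := by
      intro t ht k
      obtain ⟨K, hK⟩ := UnbalancedPencils.result n a f D ha hf hf' hu hD hDf hs (t.natAbs + 1)
      have hle : |t - 1| ≤ ((2 : ℕ) : ℤ) ^ (t.natAbs + 1) := by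
        have h1 : |t - 1| ≤ |t| + 1 := by
          refine (abs_sub t 1).trans ?_
          simp
        have h2 : ((t.natAbs + 1 : ℕ) : ℤ) ≤ ((2 ^ (t.natAbs + 1) : ℕ) : ℤ) :=
          Int.ofNat_le.2 Nat.lt_two_pow_self.le
        push_cast at h2 ⊢
        linarith
      refine (hK (t - 1) 2 (by norm_num) hle).1 t ?_ k
      unfold UnbalancedPencils.Par
      refine mem_filter.2 ⟨mem_Ioc.2 ⟨by omega, by push_cast; omega⟩, ht⟩
    have hA : ∀ L : ℕ, Pool.Agent.V1166.WI.Avg (Smooth D a f)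
        (fun t => (2 : ℝ) ^ rk (fib D a f t) *
          (Nat.card (ShaTor (fib D a f t) (2 ^ 1)) : ℝ) ^ ((1 : ℝ) / (1 : ℕ))) L := by
      intro L
      refine Pool.Agent.V1166.WI.avg_of (fun t _ => by positivity) ?_
      obtain ⟨K, hK⟩ := UnbalancedPencils.result n a f D ha hf hf' hu hD hDf hs L
      refine ⟨K, fun N M hM hN => ?_⟩
      have h1 := (hK N M (by omega) hN).2.1 1 le_rfl
      refine le_trans (le_of_eq ?_) h1
      refine Finset.sum_congr ?_ fun _ _ => rfl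
      ext t
      unfold UnbalancedPencils.Par
      simp only [mem_filter]
      exact Iff.rfl
    filter_upwards [Pool.Agent.V1166.WI.average hA hv] with α hα C ε hε hC
    filter_upwards [hα C ε hε hC] with m hm t ht hsm k hk
    exact ⟨hfin t hsm k, (Pool.Agent.V1166.WI.wt_le_one (hfin t hsm 1) hk).trans (hm t ht hsm)⟩

end Pool.Agent.Results.MP_157626_nt.SelmerWindows
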