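import Mathlib
import Pool.Agent.Results.MP_157626_nt.TwistFamilyMoments
import Pool.Agent.Results.MP_157626_nt.UnbalancedPencils
import Pool.Agent.V11109.MOM.Basic

/-!
# Ranks of elliptic curves in one-parameter families at the terms of sparse sequences

Let `p > 1` be a real number. There is a set `A₀` of real numbers of Hausdorff dimension smaller than
one such that the following holds for all `α > 0` outside `A₀`, with `t_j = ⌊α j ^ p⌋`.

* `E` is any elliptic curve over `ℚ` with full rational 2-torsion and `D(t)` any product of pairwise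
  non-proportional linear polynomials with integer coefficients. All moments of the orders of the
  2-Selmer groups of the quadratic twists by `D(t_j)`, `j ≤ N`, are bounded, as `N` tends to infinity. So
  the proportion of the `j` for which the twist by `D(t_j)` has rank at least `r` is at most
  `C_k / 2 ^ (k r)`, for every `k`.
* `W_t : y² = x (x - D(t) u₀(t)) (x - D(t) u₁(t))` is any family of the result `UnbalancedPencils`. The
  average of `2 ^ rank * #Ш[2 ^ k] ^ (1 / k)` over the `W_t`, `t = t_j`, `j ≤ N`, is bounded.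

The bounds do not depend on `α`.
-/

set_option autoImplicit false

namespace Pool.Agent.Results.MP_157626_nt.SparseMembers

open Finset Polynomial

open Pool.Agent.TH841.SH.D (ShaTor HasDiv rk)
open Pool.Agent.Results.MP_157626_nt.TwistFamilyMoments (sel)
open Pool.Agent.Results.MP_157626_nt.UnbalancedPencils (u s fib)
open Pool.Agent.V11109.MOM (G G_nonneg Ok)
open Pool.Agent.W307.SE (SN SN_nonneg)

/-- the terms of the sequence -/
noncomputable def term (p α : ℝ) (j : ℕ) : ℤ := ((⌊α * (j : ℝ) ^ p⌋₊ : ℕ) : ℤ)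

/-- the value at `t` of the product of the linear polynomials `γ i * t + δ i` -/
def lin {m : ℕ} (γ δ : Fin m → ℤ) (t : ℤ) : ℤ := TwistFamilyMoments.D γ δ t

open Classical in
/-- the `j ≤ N` with the property `Q` -/
noncomputable def upTo (N : ℕ) (Q : ℕ → Prop) : Finset ℕ := (Icc 1 N).filter Q

open Classical in
lemma mem_upTo {N : ℕ} {Q : ℕ → Prop} {j : ℕ} : j ∈ upTo N Q ↔ j ∈ Icc 1 N ∧ Q j := by
  unfold upTo
  exact Finset.mem_filter

open Classical in
lemma sum_upTo_le {N : ℕ} {Q : ℕ → Prop} {f g : ℕ → ℝ} (h : ∀ j, Q j → f j ≤ g j)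
    (h0 : ∀ j, 0 ≤ g j) : ∑ j ∈ upTo N Q, f j ≤ ∑ j ∈ Icc 1 N, g j := by
  refine (Finset.sum_le_sum fun j hj => h j (mem_upTo.1 hj).2).trans ?_
  refine Finset.sum_le_sum_of_subset_of_nonneg (fun j hj => (mem_upTo.1 hj).1) fun j _ _ => h0 j

/-- moments of the 2-Selmer groups and tails of the ranks of the twists by `D(t_j)`, `j ≤ N` -/
def TwistLaw (p α : ℝ) (A B : ℤ) {m : ℕ} (γ δ : Fin m → ℤ) (k : ℕ) (C : ℝ) : Prop :=
  ∃ N₀ : ℕ, ∀ N : ℕ, N₀ ≤ N →
    ∑ j ∈ upTo N (fun j => lin γ δ (term p α j) ≠ 0),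
      (sel A B (lin γ δ (term p α j)) : ℝ) ^ k ≤ C * N ∧
    ∀ r : ℕ, ((upTo N (fun j => lin γ δ (term p α j) ≠ 0 ∧
      r ≤ TwistFamilyMoments.rk A B (lin γ δ (term p α j)))).card : ℝ) ≤ C * N / 2 ^ (k * r)

/-- the fibre at `t` is an elliptic curve -/
def Smooth {n : Fin 3 → ℕ} (D : ℤ[X]) (a : Fin 3 → ℤ) (f : ∀ k : Fin 3, Fin (n k) → ℤ[X])
    (t : ℤ) : Prop := ∀ k, (D * u a f k).eval t ≠ 0

/-- averages and tails for the members `W_t`, `t = t_j`, `j ≤ N`, of a pencil -/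
def PencilLaw (p α : ℝ) {n : Fin 3 → ℕ} (D : ℤ[X]) (a : Fin 3 → ℤ)
    (f : ∀ k : Fin 3, Fin (n k) → ℤ[X]) (C : ℝ) : Prop :=
  ∃ N₀ : ℕ, ∀ N : ℕ, N₀ ≤ N →
    (∀ j ∈ upTo N (fun j => Smooth D a f (term p α j)), ∀ k : ℕ,
      Finite (ShaTor (fib D a f (term p α j)) (2 ^ k))) ∧
    (∀ k : ℕ, 1 ≤ k → ∑ j ∈ upTo N (fun j => Smooth D a f (term p α j)),
      (2 : ℝ) ^ rk (fib D a f (term p α j)) *
        (Nat.card (ShaTor (fib D a f (term p α j)) (2 ^ k)) : ℝ) ^ ((1 : ℝ) / k) ≤ C * N) ∧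
    ∀ r q : ℕ, ((upTo N (fun j => Smooth D a f (term p α j) ∧ r ≤ rk (fib D a f (term p α j)) ∧
      HasDiv (fib D a f (term p α j)) q)).card : ℝ) ≤ C * N / 2 ^ (r + q)

/-- the polynomial `c ∏ (γ i t + δ i)` -/
noncomputable def pol {m : ℕ} (c : ℤ) (γ δ : Fin m → ℤ) : ℤ[X] := C c * ∏ i, (C (γ i) * X + C (δ i))

lemma pol_eval {m : ℕ} (c : ℤ) (γ δ : Fin m → ℤ) (t : ℤ) :
    (pol c γ δ).eval t = c * lin γ δ t := by
  unfold pol lin TwistFamilyMoments.D
  rw [eval_mul, eval_prod]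
  simp

lemma twist_sum {A B e₁ e₂ e₃ : ℤ} (hE : 4 * A ^ 3 + 27 * B ^ 2 ≠ 0)
    (he : ∀ x : ℤ, x ^ 3 + A * x + B = (x - e₁) * (x - e₂) * (x - e₃))
    {m : ℕ} (γ δ : Fin m → ℤ) (hγ : ∀ i, γ i ≠ 0)
    (hγδ : ∀ i j, i ≠ j → γ i * δ j ≠ γ j * δ i) (k : ℕ) :
    ∃ C : ℝ, ∀ X : ℕ, ∑ t ∈ Ioc 0 X, G (pol (e₂ - e₁) γ δ) (pol (e₃ - e₁) γ δ) k t ≤ C * X := by
  classical
  rcases Nat.eq_zero_or_pos k with rfl | hk
  · refine ⟨1, fun X => ?_⟩
    calc ∑ t ∈ Ioc 0 X, G (pol (e₂ - e₁) γ δ) (pol (e₃ - e₁) γ δ) 0 t ≤ ∑ t ∈ Ioc 0 X, (1 : ℝ) := by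
          refine Finset.sum_le_sum fun t _ => ?_
          unfold G
          split_ifs <;> simp
      _ = 1 * X := by simp
  · obtain ⟨h12, h13, h23⟩ := Pool.Agent.TH639.SL.disc_ne hE he
    obtain ⟨C, hC⟩ := Pool.Agent.TH639.SL.avgks (Fin m) ![e₂ - e₁, e₃ - e₁, e₂ - e₃] γ δ k 0
      (by
        intro i
        fin_cases i
        · exact h12
        · exact h13
        · exact h23)
      (by
        change (e₂ - e₁) - (e₃ - e₁) = e₂ - e₃
        ring) hγ (fun i j hij => sub_ne_zero.2 (hγδ i j hij)) hk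
    refine ⟨C, fun X => ?_⟩
    rcases Nat.eq_zero_or_pos X with rfl | hX
    · simp
    have h1 := hC 0 X hX (by simp)
    refine le_trans (le_of_eq ?_) h1
    rw [Finset.sum_filter]
    have e0 : Icc 1 X = Ioc 0 X := rfl
    rw [e0]
    refine Finset.sum_congr rfl fun t _ => ?_
    have e1 : ∀ c : ℤ, (pol c γ δ).eval (t : ℤ) = c * ∏ j, Pool.Agent.W262.RK.ff γ δ (0 + (t : ℤ)) j := by
      intro c
      rw [pol_eval, zero_add]
      rfl
    have e2 : Ok (pol (e₂ - e₁) γ δ) (pol (e₃ - e₁) γ δ) (t : ℤ) ↔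
        ∀ j, Pool.Agent.W262.RK.ff γ δ (0 + (t : ℤ)) j ≠ 0 := by
      unfold Ok
      rw [e1, e1]
      constructor
      · intro h j
        exact (Finset.prod_ne_zero_iff.1 (right_ne_zero_of_mul h.1)) j (Finset.mem_univ j)
      · intro h
        have h0 : ∏ j, Pool.Agent.W262.RK.ff γ δ (0 + (t : ℤ)) j ≠ 0 :=
          Finset.prod_ne_zero_iff.2 fun j _ => h j
        refine ⟨mul_ne_zero h12 h0, mul_ne_zero h13 h0, fun h' => h23 ?_⟩
        have := mul_right_cancel₀ h0 h'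
        linarith
    unfold G
    by_cases hok : Ok (pol (e₂ - e₁) γ δ) (pol (e₃ - e₁) γ δ) (t : ℤ)
    · rw [if_pos hok, if_pos (e2.1 hok), e1, e1]
      rfl
    · rw [if_neg hok, if_neg (fun h => hok (e2.2 h))]

/-- **Main result.** For every real `p > 1` there is a set `A₀` of Hausdorff dimension smaller than one
such that, with `t_j = ⌊α j ^ p⌋`: for every elliptic curve `y² = x³ + A x + B` with three integer roots,
every product `D(t)` of pairwise non-proportional linear polynomials and every `k` there is `C` such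
that for all `α > 0` outside `A₀` and all large `N` the sum of the `k`-th powers of the orders of the
2-Selmer groups of the twists by `D(t_j) ≠ 0`, `j ≤ N`, is at most `C N`, and for all `r` at most
`C N / 2 ^ (k r)` of these twists have rank at least `r`; and for every pencil of `UnbalancedPencils` there is `C` such that for
all `α > 0` outside `A₀` and all large `N` the sum of `2 ^ rank * #Ш[2 ^ k] ^ (1 / k)` over the elliptic
curves `W_t`, `t = t_j`, `j ≤ N`, is at most `C N` for all `k ≥ 1`, and at most `C N / 2 ^ (r + q)` of these curves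
have rank at least `r` and a subgroup `(ℚ₂ / ℤ₂) ^ q` in the Tate-Shafarevich group. -/
theorem result (p : ℝ) (hp : 1 < p) : ∃ A₀ : Set ℝ, dimH A₀ < 1 ∧
    (∀ A B e₁ e₂ e₃ : ℤ, 4 * A ^ 3 + 27 * B ^ 2 ≠ 0 →
      (∀ x : ℤ, x ^ 3 + A * x + B = (x - e₁) * (x - e₂) * (x - e₃)) →
      ∀ (m : ℕ) (γ δ : Fin m → ℤ), (∀ i, γ i ≠ 0) → (∀ i j, i ≠ j → γ i * δ j ≠ γ j * δ i) →
      ∀ k : ℕ, ∃ C : ℝ, ∀ α : ℝ, 0 < α → α ∉ A₀ → TwistLaw p α A B γ δ k C) ∧
    ∀ (n : Fin 3 → ℕ) (a : Fin 3 → ℤ) (f : ∀ k : Fin 3, Fin (n k) → ℤ[X]) (D : ℤ[X]),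
      (∀ k, a k ≠ 0) → (∀ k i, Irreducible (f k i) ∧ 0 < (f k i).natDegree) →
      (∀ k i l j, (⟨k, i⟩ : Σ k : Fin 3, Fin (n k)) ≠ ⟨l, j⟩ → ¬ Associated (f k i) (f l j)) →
      u a f 0 - u a f 1 = u a f 2 → D ≠ 0 → (∀ k i, ¬ f k i ∣ D) →
      (∀ k, 2 * n k + s D a f k ≤ n 0 + n 1 + n 2) →
      ∃ C : ℝ, ∀ α : ℝ, 0 < α → α ∉ A₀ → PencilLaw p α D a f C := by
  classical
  obtain ⟨A₀, hA₀, hlaw⟩ := Pool.Agent.V11109.MOM.law p hp
  refine ⟨A₀, hA₀, ?_, ?_⟩
  · intro A B e₁ e₂ e₃ hE he m γ δ hγ hγδ k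
    obtain ⟨C, hC⟩ := twist_sum hE he γ δ hγ hγδ k
    refine ⟨C + 1, fun α hα hαA => ?_⟩
    obtain ⟨N₁, hN₁⟩ := hlaw α hα hαA _ _ k C hC 1 one_pos
    refine ⟨N₁, fun N hN => ?_⟩
    obtain ⟨h12, h13, h23⟩ := Pool.Agent.TH639.SL.disc_ne hE he
    have hok : ∀ j : ℕ, lin γ δ (term p α j) ≠ 0 →
        Ok (pol (e₂ - e₁) γ δ) (pol (e₃ - e₁) γ δ) (term p α j) := by
      intro j h0
      unfold Ok
      rw [pol_eval, pol_eval]
      refine ⟨mul_ne_zero h12 h0, mul_ne_zero h13 h0, fun h' => h23 ?_⟩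
      have := mul_right_cancel₀ h0 h'
      linarith
    have hsel : ∀ j : ℕ, lin γ δ (term p α j) ≠ 0 →
        (sel A B (lin γ δ (term p α j)) : ℝ) ^ k ≤
          G (pol (e₂ - e₁) γ δ) (pol (e₃ - e₁) γ δ) k ⌊α * (j : ℝ) ^ p⌋₊ := by
      intro j h0
      have h1 := (Pool.Agent.TH639.SL.sel_tw hE he h0).2
      have h2 := hok j h0
      unfold G
      have h3 : Ok (pol (e₂ - e₁) γ δ) (pol (e₃ - e₁) γ δ) ((⌊α * (j : ℝ) ^ p⌋₊ : ℕ) : ℤ) := h2
      rw [if_pos h3]
      have e3 : ∀ c : ℤ, (pol c γ δ).eval ((⌊α * (j : ℝ) ^ p⌋₊ : ℕ) : ℤ) = c * lin γ δ (term p α j) :=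
        fun c => pol_eval c γ δ _
      rw [e3, e3]
      exact pow_le_pow_left₀ (Nat.cast_nonneg _) h1 k
    have hsum : ∑ j ∈ upTo N (fun j => lin γ δ (term p α j) ≠ 0),
        (sel A B (lin γ δ (term p α j)) : ℝ) ^ k ≤ (C + 1) * N := by
      exact le_trans (sum_upTo_le hsel fun j => G_nonneg _ _ _ _) (hN₁ N hN)
    refine ⟨hsum, fun r => ?_⟩
    rw [le_div_iff₀ (by positivity)]
    refine le_trans ?_ hsum
    have hsub : upTo N (fun j => lin γ δ (term p α j) ≠ 0 ∧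
        r ≤ TwistFamilyMoments.rk A B (lin γ δ (term p α j))) ⊆
        upTo N (fun j => lin γ δ (term p α j) ≠ 0) := by
      intro j hj
      rw [mem_upTo] at hj ⊢
      exact ⟨hj.1, hj.2.1⟩
    refine le_trans ?_ (Finset.sum_le_sum_of_subset_of_nonneg hsub (fun _ _ _ => by positivity))
    rw [← nsmul_eq_mul]
    refine Finset.card_nsmul_le_sum _ _ _ fun j hj => ?_
    obtain ⟨_, h1, h2⟩ := mem_upTo.1 hj
    have h3 : 2 ^ r ≤ sel A B (lin γ δ (term p α j)) :=
      (Nat.pow_le_pow_right (by norm_num) h2).trans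
        ((TwistFamilyMoments.result A B e₁ e₂ e₃ hE he m γ δ hγ hγδ).1 _ h1).2
    have h4 : ((2 : ℝ) ^ r) ≤ (sel A B (lin γ δ (term p α j)) : ℝ) := by exact_mod_cast h3
    rw [mul_comm k r, pow_mul]
    exact pow_le_pow_left₀ (by positivity) h4 k
  · intro n a f D ha hf hf' hu hD hDf hs
    have hirr : Pool.Agent.TH841.PT.Irr (Pool.Agent.TH841.TR.fp f) :=
      ⟨fun x => (hf x.1 x.2).1, fun x => (hf x.1 x.2).2, fun x y hxy => hf' x.1 x.2 y.1 y.2 hxy⟩
    have hB : Pool.Agent.TH841.TR.Bal D a f :=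
      Pool.Agent.TH841.TR.bal_of (v := UnbalancedPencils.v D a f) rfl rfl rfl hs
    obtain ⟨C, hC0, hC⟩ := Pool.Agent.TH841.TR.pen_all Pool.Agent.TH841.TR.tav3x a f ha hirr hu D hD hDf hB 0
    have hokiff : ∀ t : ℤ, Ok (D * u a f 0) (D * u a f 1) t ↔ Smooth D a f t := by
      intro t
      have e2 : (D * u a f 2).eval t = (D * u a f 0).eval t - (D * u a f 1).eval t := by
        rw [← hu, mul_sub, eval_sub]
      constructor
      · rintro ⟨h1, h2, h3⟩ k
        fin_cases k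
        · exact h1
        · exact h2
        · show (D * u a f 2).eval t ≠ 0
          rw [e2]
          exact sub_ne_zero.2 h3
      · intro h
        refine ⟨h 0, h 1, fun h' => h 2 ?_⟩
        rw [e2, h', sub_self]
    have hsumX : ∀ X : ℕ, ∑ t ∈ Ioc 0 X, G (D * u a f 0) (D * u a f 1) 1 t ≤ C * X := by
      intro X
      rcases Nat.eq_zero_or_pos X with rfl | hX
      · simp
      have h1 := hC 0 X hX (by simp)
      refine le_trans (le_of_eq ?_) h1
      have e3 : ∑ t ∈ Ioc 0 X, G (D * u a f 0) (D * u a f 1) 1 t =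
          ∑ t ∈ (Ioc 0 X).filter (fun t : ℕ => Smooth D a f (t : ℤ)),
            SN ((D * u a f 0).eval (t : ℤ)) ((D * u a f 1).eval (t : ℤ)) := by
        rw [Finset.sum_filter]
        refine Finset.sum_congr rfl fun t _ => ?_
        unfold G
        by_cases h : Smooth D a f (t : ℤ)
        · rw [if_pos h, if_pos ((hokiff _).2 h), pow_one]
        · rw [if_neg h, if_neg (fun h' => h ((hokiff _).1 h'))]
      rw [e3]
      refine Finset.sum_bij (fun t _ => (t : ℤ)) ?_ ?_ ?_ ?_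
      · intro t ht
        rw [Finset.mem_filter, Finset.mem_Ioc] at ht ⊢
        refine ⟨⟨by exact_mod_cast ht.1.1, ?_⟩, ht.2⟩
        rw [zero_add]
        exact_mod_cast ht.1.2
      · intro x _ y _ hxy
        exact_mod_cast hxy
      · intro z hz
        rw [Finset.mem_filter, Finset.mem_Ioc] at hz
        refine ⟨z.toNat, ?_, ?_⟩
        · rw [Finset.mem_filter, Finset.mem_Ioc]
          have hz1 := hz.1
          have e4 : ((z.toNat : ℕ) : ℤ) = z := by omega
          refine ⟨by omega, ?_⟩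
          rw [e4]
          exact hz.2
        · show ((z.toNat : ℕ) : ℤ) = z
          omega
      · intro t _
        rfl
    refine ⟨C + 1, fun α hα hαA => ?_⟩
    obtain ⟨N₁, hN₁⟩ := hlaw α hα hαA _ _ 1 C hsumX 1 one_pos
    refine ⟨N₁, fun N hN => ?_⟩
    set S : Finset ℕ := upTo N (fun j => Smooth D a f (term p α j)) with hS
    have hmem : ∀ j ∈ S, Smooth D a f (term p α j) := by
      intro j hj
      rw [hS] at hj
      exact (mem_upTo.1 hj).2
    obtain ⟨k1, k2, k3⟩ := Pool.Agent.TH841.SH.family S (fun j => fib D a f (term p α j))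
      (fun j => SN ((D * u a f 0).eval (term p α j)) ((D * u a f 1).eval (term p α j)))
      ((C + 1) * N) 1 (fun j hj => by
        obtain ⟨h1, h2, h3⟩ := (hokiff _).2 (hmem j hj)
        exact Pool.Agent.TH841.PT.bd_EQ h1 h2 h3) (by
        refine le_trans ?_ (hN₁ N hN)
        rw [hS]
        refine sum_upTo_le (fun j h => ?_) fun j => G_nonneg _ _ _ _
        have h' : Ok (D * u a f 0) (D * u a f 1) ((⌊α * (j : ℝ) ^ p⌋₊ : ℕ) : ℤ) := (hokiff _).2 h
        unfold G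
        rw [if_pos h']
        exact le_refl _)
    refine ⟨k1, fun k hk => ?_, fun r q => ?_⟩
    · have := k2 k hk
      simp only [pow_one] at this
      exact this
    · have := k3 r q
      rw [one_mul] at this
      refine le_trans (le_of_eq ?_) this
      congr 1
      refine congrArg Finset.card (Finset.ext fun j => ?_)
      rw [mem_upTo, hS, Finset.mem_filter, mem_upTo]
      exact and_assoc.symm

end Pool.Agent.Results.MP_157626_nt.SparseMembers
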