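import Mathlib
import Pool.Agent.TH344.BF.Main
import Pool.Agent.TH841.PT.Fam3

/-!
# The tails of the distribution of the ranks in the families given by split binary forms

`W_{u,v} : y² = x (x - F₀(u,v)) (x - F₁(u,v))`, where `F₀`, `F₁` and `F₂ = F₀ - F₁` are binary forms
over `ℤ`, each of them a nonzero constant times a product of odd powers of `n` linear forms, the `3 n`
linear forms being pairwise non-proportional and `n > 0` being even. The parameters are the coprime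
pairs `(u, v)` with `|u|, |v| ≤ X`. Outside of one set of parameters of density zero, all the moments
of `2 ^ rank * #Ш[2 ^ j] ^ (1 / j)` are bounded, uniformly for `j ≥ 1`. So the upper density of the
parameters such that the rank is at least `r` decays faster than any exponential `A ^ (-r)`.
-/

set_option autoImplicit false

namespace Pool.Agent.Results.MP_157626_nt.SplitFormTails

open Finset Filter Topology

open Pool.Agent.TH841.SH.D (Sha ShaTor HasDiv rk)

/-- the curve `y² = x (x - A) (x - B)` over `ℚ` -/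
def E (A B : ℤ) : WeierstrassCurve ℚ := ⟨0, -((A : ℚ) + B), 0, (A : ℚ) * B, 0⟩

/-- the binary forms `F_k = a_k ∏ (α_{k,i} u + β_{k,i} v) ^ m_{k,i}`, `k = 0, 1, 2` -/
def F {n : ℕ} (a : Fin 3 → ℤ) (α β : Fin 3 → Fin n → ℤ) (m : Fin 3 → Fin n → ℕ) (k : Fin 3)
    (u v : ℤ) : ℤ := a k * ∏ i, (α k i * u + β k i * v) ^ m k i

open Classical in
/-- the coprime pairs `(u, v)` with `|u| ≤ X` and `|v| ≤ X` such that the `F_k(u, v)` are not zero -/
noncomputable def Par {n : ℕ} (a : Fin 3 → ℤ) (α β : Fin 3 → Fin n → ℤ) (m : Fin 3 → Fin n → ℕ)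
    (X : ℕ) : Finset (ℤ × ℤ) :=
  (Icc (-(X : ℤ)) X ×ˢ Icc (-(X : ℤ)) X).filter
    (fun t => IsCoprime t.1 t.2 ∧ ∀ k, F a α β m k t.1 t.2 ≠ 0)

/-- the elliptic curve `y² = x (x - F₀(u, v)) (x - F₁(u, v))` -/
def W {n : ℕ} (a : Fin 3 → ℤ) (α β : Fin 3 → Fin n → ℤ) (m : Fin 3 → Fin n → ℕ) (t : ℤ × ℤ) :
    WeierstrassCurve ℚ := E (F a α β m 0 t.1 t.2) (F a α β m 1 t.1 t.2)

/-- the proportion of the parameters of `S` among the parameters with `|u|, |v| ≤ X` -/
noncomputable def proportion {n : ℕ} (a : Fin 3 → ℤ) (α β : Fin 3 → Fin n → ℤ)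
    (m : Fin 3 → Fin n → ℕ) (S : Set (ℤ × ℤ)) (X : ℕ) : ℝ :=
  (((Par a α β m X : Set (ℤ × ℤ)) ∩ S).ncard : ℝ) / (Par a α β m X).card

/-- the upper density of a set of parameters -/
noncomputable def upperDensity {n : ℕ} (a : Fin 3 → ℤ) (α β : Fin 3 → Fin n → ℤ)
    (m : Fin 3 → Fin n → ℕ) (S : Set (ℤ × ℤ)) : ℝ := limsup (proportion a α β m S) atTop

section

variable {n : ℕ} (a : Fin 3 → ℤ) (α β : Fin 3 → Fin n → ℤ) (m : Fin 3 → Fin n → ℕ)

/-- the data of the family -/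
def fam (hn : 0 < n) (hne : Even n) (ha : ∀ k, a k ≠ 0) (hm : ∀ k i, Odd (m k i))
    (hl : ∀ k i l j, (k, i) ≠ (l, j) → α k i * β l j ≠ α l j * β k i)
    (hF : ∀ u v, F a α β m 0 u v - F a α β m 1 u v = F a α β m 2 u v) :
    Pool.Agent.TH344.BF.Fam n where
  l := fun j => (α j.1 j.2, β j.1 j.2)
  m := fun j => m j.1 j.2
  a := a
  n0 := hn
  ne := hne
  hm := fun j => hm j.1 j.2
  ha := ha
  hl := fun i j h => hl i.1 i.2 j.1 j.2 h
  hF := hF

end

open Classical in
/-- **Theorem.** Let `F_k(u, v) = a_k ∏_{i < n} (α_{k,i} u + β_{k,i} v) ^ m_{k,i}`, `k = 0, 1, 2`, be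
three binary forms with integer coefficients and `F₀ - F₁ = F₂`, where `n` is positive and even,
`a_k ≠ 0`, the `m_{k,i}` are odd, and the `3 n` linear forms are pairwise non-proportional. Let
`W_t : y² = x (x - F₀(t)) (x - F₁(t))` for the coprime pairs `t = (u, v)` of integers with
`F_k(t) ≠ 0` for `k = 0, 1, 2`. At least `X² / 8` of them have `|u|, |v| ≤ X`, if `X` is large. The
groups `Ш(W_t)[2 ^ j]` are finite. There is a set `Z` of parameters of density zero such that for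
every `k` there is `C` such that the sum of the `k`-th powers of
`2 ^ rank * #Ш(W_t)[2 ^ j] ^ (1 / j)` over the parameters with `|u|, |v| ≤ X` outside of `Z` is at
most `C` times the number of the parameters with `|u|, |v| ≤ X`, for all `X` and all `j ≥ 1`. For
every real number `A`, the upper density of the `t` such that the rank of `W_t` plus the number of
copies of `ℚ₂ / ℤ₂` in its Tate-Shafarevich group is at least `r`, times `A ^ r`, tends to zero for
`r → ∞`. -/
theorem result (n : ℕ) (hn : 0 < n) (hne : Even n) (a : Fin 3 → ℤ) (α β : Fin 3 → Fin n → ℤ)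
    (m : Fin 3 → Fin n → ℕ) (ha : ∀ k, a k ≠ 0) (hm : ∀ k i, Odd (m k i))
    (hl : ∀ k i l j, (k, i) ≠ (l, j) → α k i * β l j ≠ α l j * β k i)
    (hF : ∀ u v, F a α β m 0 u v - F a α β m 1 u v = F a α β m 2 u v) :
    (∃ X0 : ℕ, ∀ X, X0 ≤ X → (X : ℝ) ^ 2 / 8 ≤ (Par a α β m X).card) ∧
    (∀ X, ∀ t ∈ Par a α β m X, ∀ j : ℕ, Finite (ShaTor (W a α β m t) (2 ^ j))) ∧
    (∃ Z : Set (ℤ × ℤ), Tendsto (proportion a α β m Z) atTop (𝓝 0) ∧
      ∀ k : ℕ, ∃ C : ℝ, ∀ X j : ℕ, 1 ≤ j →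
        ∑ t ∈ (Par a α β m X).filter (fun t => t ∉ Z), ((2 : ℝ) ^ rk (W a α β m t) *
          (Nat.card (ShaTor (W a α β m t) (2 ^ j)) : ℝ) ^ ((1 : ℝ) / j)) ^ k ≤
          C * (Par a α β m X).card) ∧
    ∀ A : ℝ, Tendsto (fun r : ℕ => A ^ r * upperDensity a α β m
      {t | ∃ q : ℕ, HasDiv (W a α β m t) q ∧ r ≤ rk (W a α β m t) + q}) atTop (𝓝 0) := by
  set G : Pool.Agent.TH344.BF.Fam n := fam a α β m hn hne ha hm hl hF with hG
  have hbf : ∀ k u v, Pool.Agent.TH344.SG.bf G.l G.m G.a k u v = F a α β m k u v :=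
    fun k u v => rfl
  have hPar : ∀ X, Par a α β m X = Pool.Agent.TH344.BF.Fb G X := by
    intro X
    unfold Par Pool.Agent.TH344.BF.Fb Pool.Agent.W307.RT.Box
    rfl
  have hpr : ∀ S, proportion a α β m S =
      Pool.Agent.TH344.GT.pr (Pool.Agent.TH344.BF.Fb G) S := by
    intro S
    funext X
    unfold proportion Pool.Agent.TH344.GT.pr
    rw [hPar]
  have hud : ∀ S, upperDensity a α β m S =
      Pool.Agent.TH344.GT.ud (Pool.Agent.TH344.BF.Fb G) S := by
    intro S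
    unfold upperDensity Pool.Agent.TH344.GT.ud
    rw [hpr]
  have hbd : ∀ X, ∀ t ∈ Par a α β m X, Pool.Agent.TH841.SH.Bd (W a α β m t)
      (Pool.Agent.W307.SE.SN (F a α β m 0 t.1 t.2) (F a α β m 1 t.1 t.2)) := by
    intro X t ht
    have h0 := (mem_filter.1 ht).2.2
    refine Pool.Agent.TH841.PT.bd_EQ (h0 0) (h0 1) fun h4 => h0 2 ?_
    rw [← hF, h4, sub_self]
  have hexc := Pool.Agent.TH344.BF.excb G
  simp only [hbf] at hexc
  have hexc' := hexc
  obtain ⟨Z, hZ1, hZ2⟩ := hexc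
  refine ⟨?_, fun X t ht j => (hbd X t ht).fin j, ⟨Z, ?_, fun k => ?_⟩, fun A => ?_⟩
  · obtain ⟨X0, hX0⟩ := Pool.Agent.TH344.GT.cop_box (fun j => (G.l j).1) (fun j => (G.l j).2)
      (Pool.Agent.TH344.BF.not_both G)
    refine ⟨X0, fun X hX => ?_⟩
    have h2 := hX0 X hX
    have h3 : (Par a α β m X) = (Pool.Agent.W307.RT.Box X).filter (fun t => IsCoprime t.1 t.2 ∧
        ∀ j, (G.l j).1 * t.1 + (G.l j).2 * t.2 ≠ 0) := by
      rw [hPar]
      unfold Pool.Agent.TH344.BF.Fb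
      apply filter_congr
      intro t _
      rw [Pool.Agent.TH344.BF.bf_ne]
    rw [h3]
    exact h2
  · rw [hpr]
    exact Pool.Agent.TH344.GT.tendsto_of_eps _ hZ1
  · obtain ⟨C, hC⟩ := hZ2 k
    refine ⟨C, fun X j hj => ?_⟩
    have h1 := hC X
    rw [← hPar] at h1
    refine le_trans (sum_le_sum fun t ht => ?_) h1
    have h2 := (hbd X t (mem_filter.1 ht).1).wt_le hj
    exact pow_le_pow_left₀ (Pool.Agent.TH841.SH.wt_nonneg _ _) h2 k
  · rw [show (fun r : ℕ => A ^ r * upperDensity a α β m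
      {t | ∃ q : ℕ, HasDiv (W a α β m t) q ∧ r ≤ rk (W a α β m t) + q}) = fun r : ℕ => A ^ r *
        Pool.Agent.TH344.GT.ud (Pool.Agent.TH344.BF.Fb G)
      {t | ∃ q : ℕ, HasDiv (W a α β m t) q ∧ r ≤ rk (W a α β m t) + q} from by
      funext r
      rw [hud]]
    apply Pool.Agent.TH344.GT.tail _ hexc' 1 (S := fun r => {t | ∃ q : ℕ,
      HasDiv (W a α β m t) q ∧ r ≤ rk (W a α β m t) + q})
    intro r X t ht hr
    rw [← hPar] at ht
    obtain ⟨q, hq, hrq⟩ := hr
    have h3 := (hbd X t ht).div_le (r := rk (W a α β m t)) (δ := q) le_rfl hq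
    rw [pow_one]
    have h4 : (2 : ℝ) ^ r ≤ 2 ^ (rk (W a α β m t) + q) :=
      pow_le_pow_right₀ (by norm_num) hrq
    have h5 := h4.trans h3
    unfold Pool.Agent.W307.SE.SN at h5
    exact_mod_cast h5

end Pool.Agent.Results.MP_157626_nt.SplitFormTails
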